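import Pool.Agent.TFJ.Stmts

/-!
# Row NEA of the squad TFJ: an almost extremal function is near the distance function of a point
-/

set_option autoImplicit false

namespace Pool.Agent.TFJ.H6

/-- **NEA** -/
theorem nea (hSTA : StaStmt) : NeaStmt := by
  intro E _ hE f C δ hf hC hδ
  have hit : ∀ n : ℕ, Adm (qq^[n] f) ∧ ∀ x, qq^[n] f x - st (qq^[n] f) x ≤ C / 2 ^ n := by
    intro n
    induction n with
    | zero =>
      refine ⟨hf, fun x => ?_⟩
      rw [pow_zero, div_one]
      exact hC x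
    | succ n ih =>
      obtain ⟨ih1, ih2⟩ := ih
      obtain ⟨-, -, h3, -, h5⟩ := hSTA E (qq^[n] f) ih1
      rw [Function.iterate_succ_apply']
      refine ⟨h3, fun x => ?_⟩
      have h6 := h5 x
      have h7 := ih2 x
      have h8 : C / 2 ^ (n + 1) = (C / 2 ^ n) / 2 := by rw [pow_succ, div_div]
      rw [h8]
      linarith
  obtain ⟨n, hn⟩ := pow_unbounded_of_one_lt (C / δ) (one_lt_two : (1 : ℝ) < 2)
  have hCn : C / 2 ^ n ≤ δ := by
    rw [div_lt_iff₀ hδ] at hn
    rw [div_le_iff₀ (by positivity)]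
    linarith
  obtain ⟨hF, hF2⟩ := hit n
  obtain ⟨z, hz⟩ := hE E id (qq^[n] f) (fun i j => hF i j)
  refine ⟨n, z, fun x => ?_⟩
  have : Nonempty E := ⟨z⟩
  have h1 : st (qq^[n] f) x ≤ dist z x := by
    refine ciSup_le fun w => ?_
    have h2 : dist z w ≤ qq^[n] f w := hz w
    have h3 := dist_triangle x z w
    rw [dist_comm x z] at h3
    linarith
  have h4 : dist z x ≤ qq^[n] f x := hz x
  have h5 := hF2 x
  rw [abs_le]
  constructor <;> linarith

end Pool.Agent.TFJ.H6
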